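import Mathlib
import Pool.Agent.H119R2.Kp.Defs
import Pool.Agent.H119R2.Kp.PVE
import Pool.Agent.H119R2.Kp.Rel

set_option autoImplicit false

/-!
MP_257582_lc: the relation for a group which acts on `k` blocks of size `p` by translations,
a permutation of the blocks and multiplications; `r` further vertices are fixed.
-/

namespace Pool.Agent.N593.Karp

open Finset
open Pool.Agent.H98R2.Ev (EV toG NE)
open Pool.Agent.H119R2.Kp

/-- vertices: `r` fixed vertices and `k` blocks -/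
abbrev W (k r p : ℕ) : Type := Fin r ⊕ (Fin k × ZMod p)

/-- the part of a vertex -/
def prt {k r p : ℕ} : W k r p → Fin (k + 1)
  | Sum.inl _ => 0
  | Sum.inr (b, _) => b.succ

/-- the permutation of the parts -/
def ta {k : ℕ} (τ : Equiv.Perm (Fin k)) : Fin (k + 1) → Fin (k + 1) :=
  Fin.cases 0 (fun b => (τ b).succ)

@[simp] theorem ta_zero {k : ℕ} (τ : Equiv.Perm (Fin k)) : ta τ 0 = 0 := rfl

@[simp] theorem ta_succ {k : ℕ} (τ : Equiv.Perm (Fin k)) (b : Fin k) :
    ta τ b.succ = (τ b).succ := rfl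

/-- translation of block `b` -/
def tr {k r p : ℕ} (b : Fin k) (t : ZMod p) : Equiv.Perm (W k r p) :=
  Equiv.sumCongr (Equiv.refl _)
    (Equiv.prodShear (Equiv.refl _) (fun b' => Equiv.addRight (if b' = b then t else 0)))

@[simp] theorem tr_inl {k r p : ℕ} (b : Fin k) (t : ZMod p) (a : Fin r) :
    tr b t (Sum.inl a : W k r p) = Sum.inl a := rfl

@[simp] theorem tr_inr {k r p : ℕ} (b b' : Fin k) (t u : ZMod p) :
    tr b t (Sum.inr (b', u) : W k r p) = Sum.inr (b', u + if b' = b then t else 0) := rfl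

/-- permutation of the blocks and multiplication -/
def rc {k r p : ℕ} (τ : Equiv.Perm (Fin k)) (m : Fin k → (ZMod p)ˣ) : Equiv.Perm (W k r p) :=
  Equiv.sumCongr (Equiv.refl _) (Equiv.prodShear τ (fun b => Units.mulLeft (m b)))

@[simp] theorem rc_inl {k r p : ℕ} (τ : Equiv.Perm (Fin k)) (m : Fin k → (ZMod p)ˣ) (a : Fin r) :
    rc τ m (Sum.inl a : W k r p) = Sum.inl a := rfl

@[simp] theorem rc_inr {k r p : ℕ} (τ : Equiv.Perm (Fin k)) (m : Fin k → (ZMod p)ˣ) (b : Fin k)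
    (u : ZMod p) : rc τ m (Sum.inr (b, u) : W k r p) = Sum.inr (τ b, m b * u) := rfl

theorem prt_tr {k r p : ℕ} (b : Fin k) (t : ZMod p) (w : W k r p) : prt (tr b t w) = prt w := by
  rcases w with a | ⟨b', u⟩ <;> rfl

theorem prt_rc {k r p : ℕ} (τ : Equiv.Perm (Fin k)) (m : Fin k → (ZMod p)ˣ) (w : W k r p) :
    prt (rc τ m w) = ta τ (prt w) := by
  rcases w with a | ⟨b', u⟩ <;> rfl

theorem tr_add {k r p : ℕ} (b : Fin k) (t t' : ZMod p) :
    (tr b t * tr b t' : Equiv.Perm (W k r p)) = tr b (t + t') := by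
  ext w
  rcases w with a | ⟨b', u⟩
  · simp
  · simp only [Equiv.Perm.mul_apply, tr_inr]
    split_ifs
    · rw [add_assoc, add_comm t']
    · simp

theorem tr_zero {k r p : ℕ} (b : Fin k) : (tr b 0 : Equiv.Perm (W k r p)) = 1 := by
  ext w
  rcases w with a | ⟨b', u⟩
  · simp
  · simp

theorem tr_pow {k r p : ℕ} (b : Fin k) (e : ℕ) :
    (tr b 1 : Equiv.Perm (W k r p)) ^ e = tr b (e : ZMod p) := by
  induction e with
  | zero => simp [tr_zero]
  | succ e ih => rw [pow_succ, ih, tr_add]; simp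

theorem tr_comm {k r p : ℕ} (b b' : Fin k) (t t' : ZMod p) :
    (tr b t * tr b' t' : Equiv.Perm (W k r p)) = tr b' t' * tr b t := by
  ext w
  rcases w with a | ⟨b'', u⟩
  · simp
  · simp only [Equiv.Perm.mul_apply, tr_inr]
    rw [add_assoc, add_assoc, add_comm (if b'' = b' then t' else 0)]

theorem conj {k r p : ℕ} (τ : Equiv.Perm (Fin k)) (m : Fin k → (ZMod p)ˣ) (b : Fin k) :
    ((rc τ m)⁻¹ * tr b 1 * rc τ m : Equiv.Perm (W k r p)) =
      tr (τ.symm b) (((m (τ.symm b))⁻¹ : (ZMod p)ˣ) : ZMod p) := by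
  rw [mul_assoc, inv_mul_eq_iff_eq_mul]
  ext w
  rcases w with a | ⟨b', u⟩
  · simp
  · simp only [Equiv.Perm.mul_apply, tr_inr, rc_inr]
    by_cases h : b' = τ.symm b
    · subst h
      simp [mul_add]
    · have h' : τ b' ≠ b := fun h' => h (by rw [← h', Equiv.symm_apply_apply])
      simp [h, h']

theorem tr_mem {k r p : ℕ} [NeZero p] (b : Fin k) (t : ZMod p) :
    (tr b t : Equiv.Perm (W k r p)) ∈
      Subgroup.closure (Set.range (fun b : Fin k => (tr b 1 : Equiv.Perm (W k r p)))) := by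
  have h : (tr b t : Equiv.Perm (W k r p)) = (tr b 1) ^ t.val := by
    rw [tr_pow, ZMod.natCast_zmod_val]
  rw [h]
  exact Subgroup.pow_mem _ (Subgroup.subset_closure (Set.mem_range_self (f := fun b : Fin k =>
    (tr b 1 : Equiv.Perm (W k r p))) b)) _

/-- the big group -/
def GG (k r p : ℕ) (τ : Equiv.Perm (Fin k)) (m : Fin k → (ZMod p)ˣ) :
    Subgroup (Equiv.Perm (W k r p)) :=
  Subgroup.closure (insert (rc τ m) (Set.range (fun b : Fin k => tr b 1)))

theorem tr_memG {k r p : ℕ} [NeZero p] (τ : Equiv.Perm (Fin k)) (m : Fin k → (ZMod p)ˣ)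
    (b : Fin k) (t : ZMod p) : (tr b t : Equiv.Perm (W k r p)) ∈ GG k r p τ m :=
  Subgroup.closure_mono (Set.subset_insert _ _) (tr_mem b t)

theorem rc_memG {k r p : ℕ} (τ : Equiv.Perm (Fin k)) (m : Fin k → (ZMod p)ˣ) (e : ℕ) :
    (rc τ m ^ e : Equiv.Perm (W k r p)) ∈ GG k r p τ m :=
  Subgroup.pow_mem _ (Subgroup.subset_closure (Set.mem_insert _ _)) _

theorem rc_pow {k r p : ℕ} (τ : Equiv.Perm (Fin k)) (m : Fin k → (ZMod p)ˣ) (e : ℕ) (b : Fin k) :
    ∃ v : (ZMod p)ˣ, ∀ u, (rc τ m ^ e : Equiv.Perm (W k r p)) (Sum.inr (b, u)) =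
      Sum.inr ((τ ^ e) b, v * u) := by
  induction e with
  | zero => exact ⟨1, fun u => by simp⟩
  | succ e ih =>
    obtain ⟨v, hv⟩ := ih
    refine ⟨m ((τ ^ e) b) * v, fun u => ?_⟩
    rw [pow_succ', Equiv.Perm.mul_apply, hv, rc_inr, pow_succ', Equiv.Perm.mul_apply, Units.val_mul,
      mul_assoc]

/-- the multiplier of each cycle is `μ` -/
def Per {k p : ℕ} (τ : Equiv.Perm (Fin k)) (m : Fin k → (ZMod p)ˣ) (μ : (ZMod p)ˣ) : Prop :=
  ∀ b : Fin k, ∃ e : ℕ, ∀ (r : ℕ) (u : ZMod p),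
    (rc τ m ^ e : Equiv.Perm (W k r p)) (Sum.inr (b, u)) = Sum.inr (b, μ * u)

/-- two vertices in different blocks -/
theorem trans2 {k r p : ℕ} [NeZero p] (τ : Equiv.Perm (Fin k)) (m : Fin k → (ZMod p)ˣ)
    {b c b' c' : Fin k} {u v u' v' : ZMod p} (hbc : b ≠ c) (e : ℕ) (h1 : (τ ^ e) b = b')
    (h2 : (τ ^ e) c = c') :
    ∃ g ∈ GG k r p τ m, g (Sum.inr (b, u)) = Sum.inr (b', u') ∧
      g (Sum.inr (c, v)) = Sum.inr (c', v') := by
  obtain ⟨x, hx⟩ := rc_pow (r := r) τ m e b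
  obtain ⟨y, hy⟩ := rc_pow (r := r) τ m e c
  have hne : b' ≠ c' := by
    rw [← h1, ← h2]
    exact fun h => hbc ((τ ^ e).injective h)
  refine ⟨tr b' (u' - (x : ZMod p) * u) * tr c' (v' - (y : ZMod p) * v) * rc τ m ^ e,
    Subgroup.mul_mem _ (Subgroup.mul_mem _ (tr_memG _ _ _ _) (tr_memG _ _ _ _)) (rc_memG _ _ _),
    ?_, ?_⟩
  · rw [Equiv.Perm.mul_apply, Equiv.Perm.mul_apply, hx, h1]
    simp [hne]
  · rw [Equiv.Perm.mul_apply, Equiv.Perm.mul_apply, hy, h2]
    simp [hne.symm]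

/-- two vertices in the same block -/
theorem trans3 {k r p : ℕ} [Fact p.Prime] (τ : Equiv.Perm (Fin k)) (m : Fin k → (ZMod p)ˣ)
    (μ : (ZMod p)ˣ) (hμ : ∀ ν : (ZMod p)ˣ, ν ∈ Subgroup.zpowers μ) (hper : Per τ m μ)
    {b b' : Fin k} {u v u' v' : ZMod p} (h : u ≠ v) (h' : u' ≠ v') (e : ℕ)
    (h1 : (τ ^ e) b = b') :
    ∃ g ∈ GG k r p τ m, g (Sum.inr (b, u)) = Sum.inr (b', u') ∧
      g (Sum.inr (b, v)) = Sum.inr (b', v') := by
  obtain ⟨x, hx⟩ := rc_pow (r := r) τ m e b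
  obtain ⟨f, hf⟩ := hper b'
  have hf' : ∀ (j : ℕ) (w : ZMod p), (rc τ m ^ (f * j) : Equiv.Perm (W k r p)) (Sum.inr (b', w)) =
      Sum.inr (b', (μ : ZMod p) ^ j * w) := by
    intro j
    induction j with
    | zero => intro w; simp
    | succ j ih =>
      intro w
      rw [Nat.mul_succ, pow_add, Equiv.Perm.mul_apply, hf, ih, pow_succ, mul_assoc]
  have hxu : (x : ZMod p) * u ≠ x * v := fun h2 => h (x.mul_right_inj.mp h2)
  have hν : ∃ j : ℕ, (μ : ZMod p) ^ j * ((x : ZMod p) * u - x * v) = u' - v' := by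
    have h2 : (x : ZMod p) * u - x * v ≠ 0 := sub_ne_zero.mpr hxu
    have h3 : u' - v' ≠ 0 := sub_ne_zero.mpr h'
    have h4 := hμ ((Units.mk0 _ h3) * (Units.mk0 _ h2)⁻¹)
    rw [← mem_powers_iff_mem_zpowers] at h4
    obtain ⟨j, hj⟩ := h4
    refine ⟨j, ?_⟩
    have h5 : ((μ ^ j : (ZMod p)ˣ) : ZMod p) = (u' - v') * (x * u - x * v)⁻¹ := by
      simp only at hj
      rw [hj]
      simp
    rw [Units.val_pow_eq_pow_val] at h5
    rw [h5, mul_assoc, inv_mul_cancel₀ h2, mul_one]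
  obtain ⟨j, hj⟩ := hν
  refine ⟨tr b' (u' - (μ : ZMod p) ^ j * ((x : ZMod p) * u)) * rc τ m ^ (f * j) * rc τ m ^ e,
    Subgroup.mul_mem _ (Subgroup.mul_mem _ (tr_memG _ _ _ _) (rc_memG _ _ _)) (rc_memG _ _ _),
    ?_, ?_⟩
  · rw [Equiv.Perm.mul_apply, Equiv.Perm.mul_apply, hx, h1, hf']
    simp
  · rw [Equiv.Perm.mul_apply, Equiv.Perm.mul_apply, hx, h1, hf']
    simp
    linear_combination -hj

/-- adjacency of parts -/
def ad {k : ℕ} (Γ : Fin k → Fin k → Bool) (A B : Fin k) : Bool := Γ A B || Γ B A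

theorem ad_comm {k : ℕ} (Γ : Fin k → Fin k → Bool) (A B : Fin k) : ad Γ A B = ad Γ B A := by
  simp [ad, Bool.or_comm]

/-- pattern graph -/
def PG {k r p : ℕ} (Γ : Fin (k + 1) → Fin (k + 1) → Bool) : SimpleGraph (W k r p) where
  Adj u v := u ≠ v ∧ ad Γ (prt u) (prt v) = true
  symm := ⟨fun u v h => ⟨h.1.symm, by rw [ad_comm]; exact h.2⟩⟩
  loopless := ⟨fun _ h => h.1 rfl⟩

theorem PG_adj {k r p : ℕ} (Γ : Fin (k + 1) → Fin (k + 1) → Bool) (u v : W k r p) :
    (PG Γ : SimpleGraph (W k r p)).Adj u v ↔ u ≠ v ∧ ad Γ (prt u) (prt v) = true := Iff.rfl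

theorem fib {k r p : ℕ} [NeZero p] (A : Fin (k + 1)) :
    Fintype.card {w : W k r p // prt w = A} = sz k r p A := by
  refine Fin.cases ?_ (fun B => ?_) A
  · have e : {w : W k r p // prt w = 0} ≃ Fin r :=
      { toFun := fun w => match w with
          | ⟨Sum.inl a, _⟩ => a
          | ⟨Sum.inr (b, _), h⟩ => absurd h (Fin.succ_ne_zero b)
        invFun := fun a => ⟨Sum.inl a, rfl⟩
        left_inv := by
          rintro ⟨a | ⟨b, u⟩, h⟩
          · rfl
          · exact absurd h (Fin.succ_ne_zero b)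
        right_inv := fun a => rfl }
    rw [Fintype.card_congr e, Fintype.card_fin]
    rfl
  · have e : {w : W k r p // prt w = B.succ} ≃ ZMod p :=
      { toFun := fun w => match w with
          | ⟨Sum.inl a, _⟩ => 0
          | ⟨Sum.inr (_, u), _⟩ => u
        invFun := fun u => ⟨Sum.inr (B, u), rfl⟩
        left_inv := by
          rintro ⟨a | ⟨b', u⟩, h⟩
          · exact absurd h.symm (Fin.succ_ne_zero _)
          · simp only [prt] at h
            have := Fin.succ_injective _ h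
            subst this
            rfl
        right_inv := fun a => rfl }
    rw [Fintype.card_congr e, ZMod.card]
    simp [sz]

theorem exists_equiv (k r p : ℕ) [NeZero p] :
    ∃ e : W k r p ≃ Σ i : Fin (k + 1), Fin (sz k r p i), ∀ w, (e w).1 = prt w := by
  classical
  refine ⟨(Equiv.sigmaFiberEquiv prt).symm.trans
    (Equiv.sigmaCongrRight (fun A => Fintype.equivFinOfCardEq (fib A))), ?_⟩
  intro w
  rfl

theorem PV_PG {n q : ℕ} {P : SimpleGraph (Fin n) → Prop} (hP : GP n q P) (k r p : ℕ)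
    [NeZero p] (Γ : Fin (k + 1) → Fin (k + 1) → Bool) :
    PV P (W k r p) (PG Γ) ↔ PV P _ (BU (sz k r p) Γ) := by
  obtain ⟨e, he⟩ := exists_equiv k r p
  constructor
  · apply PV.mono hP e
    intro u v h
    refine ⟨fun h' => h.1 (e.injective h'), ?_⟩
    rw [he, he]
    simpa [ad] using h.2
  · apply PV.mono hP e.symm
    intro u v h
    refine ⟨fun h' => h.1 (e.symm.injective h'), ?_⟩
    rw [← he, ← he, e.apply_symm_apply, e.apply_symm_apply]
    simpa [ad] using h.2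

theorem PG_sup {k r p m : ℕ} (Γ : Fin (k + 1) → Fin (k + 1) → Bool)
    (O : Fin m → List (Fin (k + 1) × Fin (k + 1))) (I : Finset (Fin m)) :
    (PG Γ ⊔ ⨆ j ∈ I, PG (pat (O j)) : SimpleGraph (W k r p)) = PG (addCls Γ O I) := by
  ext u v
  simp only [SimpleGraph.sup_adj, SimpleGraph.iSup_adj, PG_adj, ad, addCls, pat]
  simp only [Bool.or_eq_true, decide_eq_true_eq]
  constructor
  · rintro (⟨h1, h2⟩ | ⟨j, hj, h1, h2⟩)
    · exact ⟨h1, h2.imp Or.inl Or.inl⟩
    · exact ⟨h1, h2.imp (fun h => Or.inr ⟨j, hj, h⟩) (fun h => Or.inr ⟨j, hj, h⟩)⟩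
  · rintro ⟨h1, (h2 | ⟨j, hj, h2⟩) | (h2 | ⟨j, hj, h2⟩)⟩
    · exact Or.inl ⟨h1, Or.inl h2⟩
    · exact Or.inr ⟨j, hj, h1, Or.inl h2⟩
    · exact Or.inl ⟨h1, Or.inr h2⟩
    · exact Or.inr ⟨j, hj, h1, Or.inr h2⟩

/-- number of ordered adjacent pairs -/
def cnt {k : ℕ} (s : Fin k → ℕ) (Γ : Fin k → Fin k → Bool) : ℕ :=
  ∑ A, ∑ B, if ad Γ A B = true then (if A = B then s A * (s A - 1) else s A * s B) else 0

theorem card_PG (k r p : ℕ) [NeZero p] (Γ : Fin (k + 1) → Fin (k + 1) → Bool) :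
    2 * Nat.card (PG Γ : SimpleGraph (W k r p)).edgeSet = cnt (sz k r p) Γ := by
  classical
  set G : SimpleGraph (W k r p) := PG Γ with hG
  have h1 : Nat.card G.edgeSet = G.edgeFinset.card := by
    rw [Nat.card_eq_fintype_card, SimpleGraph.edgeFinset_card]
  rw [h1, ← SimpleGraph.sum_degrees_eq_twice_card_edges]
  have h2 : ∀ v : W k r p, G.degree v =
      ∑ B, if ad Γ (prt v) B = true then (if prt v = B then sz k r p B - 1 else
        sz k r p B) else 0 := by
    intro v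
    rw [← SimpleGraph.card_neighborFinset_eq_degree]
    rw [Finset.card_eq_sum_card_fiberwise (f := prt) (t := univ)
      (fun _ _ => Finset.mem_coe.mpr (mem_univ _))]
    apply Finset.sum_congr rfl
    intro B _
    have hfib : (univ.filter (fun w : W k r p => prt w = B)).card = sz k r p B := by
      rw [← fib B, Fintype.card_subtype]
    split_ifs with h3 h4
    · have : (G.neighborFinset v).filter (fun w => prt w = B) =
          (univ.filter (fun w : W k r p => prt w = B)).erase v := by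
        ext w
        simp only [mem_filter, SimpleGraph.mem_neighborFinset, mem_erase, mem_univ, true_and]
        constructor
        · rintro ⟨h, rfl⟩
          exact ⟨h.1.symm, rfl⟩
        · rintro ⟨h, rfl⟩
          exact ⟨⟨h.symm, h3⟩, rfl⟩
      rw [this, Finset.card_erase_of_mem (by simp [h4]), hfib]
    · have : (G.neighborFinset v).filter (fun w => prt w = B) =
          (univ.filter (fun w : W k r p => prt w = B)) := by
        ext w
        simp only [mem_filter, SimpleGraph.mem_neighborFinset, mem_univ, true_and]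
        constructor
        · rintro ⟨h, rfl⟩
          rfl
        · rintro rfl
          exact ⟨⟨fun h => h4 (by rw [h]), h3⟩, rfl⟩
      rw [this, hfib]
    · rw [Finset.card_eq_zero, Finset.filter_eq_empty_iff]
      intro w hw hB
      rw [SimpleGraph.mem_neighborFinset] at hw
      apply h3
      rw [← hB]
      exact hw.2
  rw [Finset.sum_congr rfl (fun v _ => h2 v)]
  rw [← Finset.sum_fiberwise (s := univ) (g := prt)]
  unfold cnt
  apply Finset.sum_congr rfl
  intro A _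
  have h3 : ∀ v ∈ univ.filter (fun w : W k r p => prt w = A),
      (∑ B, if ad Γ (prt v) B = true then (if prt v = B then sz k r p B - 1 else
        sz k r p B) else 0) = ∑ B, if ad Γ A B = true then (if A = B then
          sz k r p B - 1 else sz k r p B) else 0 := by
    intro v hv
    simp only [mem_filter, mem_univ, true_and] at hv
    rw [hv]
  rw [Finset.sum_congr rfl h3, Finset.sum_const, ← Fintype.card_subtype, fib, smul_eq_mul,
    Finset.mul_sum]
  apply Finset.sum_congr rfl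
  intro B _
  split_ifs with h4 h5
  · rw [h5]
  · rfl
  · simp

/-- conditions on a class -/
def CC {k : ℕ} (τ : Equiv.Perm (Fin k)) (A B A' B' : Fin (k + 1)) : Prop :=
  ∃ e < 13, ((A = B ↔ A' = B') ∧ (ta (τ ^ e) A = A' ∧ ta (τ ^ e) B = B') ∨
    (A = B ↔ A' = B') ∧ (ta (τ ^ e) A = B' ∧ ta (τ ^ e) B = A'))

theorem relT {n q : ℕ} {P : SimpleGraph (Fin n) → Prop} (hP : GP n q P) (k r p : ℕ)
    [hpf : Fact p.Prime] (hp : 2 < p) (hn : r + k * p = n) (τ : Equiv.Perm (Fin k))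
    (m : Fin k → (ZMod p)ˣ) (μ : (ZMod p)ˣ) (hμ : ∀ ν : (ZMod p)ˣ, ν ∈ Subgroup.zpowers μ)
    (hper : Per τ m μ) {mm : ℕ}
    (Γ : Fin (k + 1) → Fin (k + 1) → Bool) (O : Fin mm → List (Fin (k + 1) × Fin (k + 1)))
    (hΓs : ∀ A B, ad Γ A B = true → ad Γ (ta τ A) (ta τ B) = true)
    (hOs : ∀ j A B, ad (pat (O j)) A B = true → ad (pat (O j)) (ta τ A) (ta τ B) = true)
    (hd : ∀ i j, i ≠ j → ∀ A B, ad (pat (O i)) A B = true → ad (pat (O j)) A B = true → False)
    (hd0 : ∀ i A B, ad Γ A B = true → ad (pat (O i)) A B = true → False)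
    (hO : ∀ j, ∃ A B, ad (pat (O j)) A B = true)
    (hO0 : ∀ j A B, ad (pat (O j)) A B = true → A ≠ 0 ∧ B ≠ 0)
    (htr : ∀ j A B A' B', ad (pat (O j)) A B = true → ad (pat (O j)) A' B' = true → CC τ A B A' B')
    (hq : 2 * q < ∑ j, cnt (sz k r p) (pat (O j))) :
    ∑ I : Finset (Fin mm), (-1 : ℤ) ^ I.card *
      hv P (sz k r p) (addCls Γ O I) = 0 := by
  classical
  have hp0 : NeZero p := ⟨by omega⟩
  have hcard : Fintype.card (W k r p) = n := by
    rw [Fintype.card_sum, Fintype.card_prod, ZMod.card, Fintype.card_fin, Fintype.card_fin, hn]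
  have hcardj : ∀ j, 2 * Nat.card (PG (pat (O j)) : SimpleGraph (W k r p)).edgeSet =
      cnt (sz k r p) (pat (O j)) := fun j => card_PG k r p _
  have hmain := rel hP (V := W k r p) hcard p (fun b : Fin k => tr b 1) (rc τ m)
    (fun i j => tr_comm i j 1 1) ?_ ?_ (PG Γ) (fun j => PG (pat (O j))) ?_ ?_ ?_ ?_ ?_ ?_ ?_ ?_ ?_
  · rw [← hmain]
    apply Finset.sum_congr rfl
    intro I _
    congr 1
    unfold hv
    rw [PG_sup]
    exact if_congr (PV_PG hP k r p _).symm rfl rfl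
  · intro b
    rw [tr_pow]
    simp [tr_zero]
  · intro b
    show _ * tr b 1 * _ ∈ _
    rw [conj]
    exact tr_mem _ _
  · intro b u v h
    refine ⟨fun h' => h.1 ((tr b 1).injective h'), ?_⟩
    rw [prt_tr, prt_tr]
    exact h.2
  · intro u v h
    refine ⟨fun h' => h.1 ((rc τ m).injective h'), ?_⟩
    rw [prt_rc, prt_rc]
    exact hΓs _ _ h.2
  · intro j b u v h
    refine ⟨fun h' => h.1 ((tr b 1).injective h'), ?_⟩
    rw [prt_tr, prt_tr]
    exact h.2
  · intro j u v h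
    refine ⟨fun h' => h.1 ((rc τ m).injective h'), ?_⟩
    rw [prt_rc, prt_rc]
    exact hOs j _ _ h.2
  · intro i j hij
    rw [disjoint_iff]
    ext u v
    simp only [SimpleGraph.inf_adj, SimpleGraph.bot_adj, iff_false, not_and]
    intro h1 h2
    exact hd i j hij _ _ h1.2 h2.2
  · intro i
    rw [disjoint_iff]
    ext u v
    simp only [SimpleGraph.inf_adj, SimpleGraph.bot_adj, iff_false, not_and]
    intro h1 h2
    exact hd0 i _ _ h1.2 h2.2
  · intro j
    obtain ⟨A, B, hAB⟩ := hO j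
    obtain ⟨hA0, hB0⟩ := hO0 j A B hAB
    obtain ⟨A, rfl⟩ := Fin.exists_succ_eq.mpr hA0
    obtain ⟨B, rfl⟩ := Fin.exists_succ_eq.mpr hB0
    have h01 : (0 : ZMod p) ≠ 1 := zero_ne_one
    exact ⟨Sum.inr (A, 0), Sum.inr (B, 1), by simp, hAB⟩
  · intro j u v u' v' h h'
    have c := htr j _ _ _ _ h.2 h'.2
    have h0 := hO0 j _ _ h.2
    have h0' := hO0 j _ _ h'.2
    rcases u with u | ⟨b, u⟩
    · exact absurd rfl h0.1
    rcases v with v | ⟨c1, v⟩
    · exact absurd rfl h0.2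
    rcases u' with u' | ⟨b', u'⟩
    · exact absurd rfl h0'.1
    rcases v' with v' | ⟨c', v'⟩
    · exact absurd rfl h0'.2
    obtain ⟨e, -, hc⟩ := c
    simp only [prt, ta_succ, Fin.succ_inj] at hc
    have hneq : ∀ {x : Fin k} {s t : ZMod p}, (Sum.inr (x, s) : W k r p) ≠ Sum.inr (x, t) →
        s ≠ t := fun h h' => h (by rw [h'])
    by_cases hbc : b = c1
    · subst hbc
      rcases hc with ⟨hi, h1, h2⟩ | ⟨hi, h1, h2⟩
      · have hbc' : b' = c' := hi.mp rfl
        subst hbc'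
        obtain ⟨g, hg, g1, g2⟩ := trans3 (r := r) τ m μ hμ hper (hneq h.1) (hneq h'.1) e h1
        exact ⟨g, hg, Or.inl ⟨g1, g2⟩⟩
      · have hbc' : b' = c' := hi.mp rfl
        subst hbc'
        obtain ⟨g, hg, g1, g2⟩ := trans3 (r := r) τ m μ hμ hper (hneq h.1) (hneq h'.1) e h1
        exact ⟨g, hg, Or.inl ⟨g1, g2⟩⟩
    · rcases hc with ⟨hi, h1, h2⟩ | ⟨hi, h1, h2⟩
      · obtain ⟨g, hg, g1, g2⟩ := trans2 (r := r) τ m (u := u) (v := v) (u' := u') (v' := v')
          hbc e h1 h2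
        exact ⟨g, hg, Or.inl ⟨g1, g2⟩⟩
      · obtain ⟨g, hg, g1, g2⟩ := trans2 (r := r) τ m (u := u) (v := v) (u' := v') (v' := u')
          hbc e h1 h2
        exact ⟨g, hg, Or.inr ⟨g1, g2⟩⟩
  · have h3 : ∑ j, cnt (sz k r p) (pat (O j)) =
      2 * ∑ j, Nat.card (PG (pat (O j)) : SimpleGraph (W k r p)).edgeSet := by
      rw [Finset.mul_sum]
      exact Finset.sum_congr rfl (fun j _ => (hcardj j).symm)
    rw [h3] at hq
    exact Nat.lt_of_mul_lt_mul_left hq

end Pool.Agent.N593.Karp
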