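import Mathlib
import Pool.Agent.H119R2.Kp.Defs
import Pool.Agent.H119R2.Kp.PVE
import Pool.Agent.N593.Karp.RelT

set_option autoImplicit false

/-!
MP_257582_lc: patterns with five parts (one of size `r`, four of size `p`) coded by masks
`g < 2 ^ 15`: bits `0, …, 9` are the pairs of parts, the bits `10, …, 14` say that a part is a
clique.
-/

namespace Pool.Agent.N593.Karp

open Finset
open Pool.Agent.H98R2.Ev (EV toG NE)
open Pool.Agent.H119R2.Kp

/-- bit of the pair `{a, b}` of parts -/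
def bx (a b : ℕ) : ℕ :=
  if a = b then 10 + a else if a < b then 4 * a - a * (a - 1) / 2 + (b - a - 1)
    else 4 * b - b * (b - 1) / 2 + (a - b - 1)

/-- adjacency of the parts `a`, `b` in the mask `g` -/
def pb (g a b : ℕ) : Bool := g.testBit (bx a b)

/-- pattern of the mask `g` -/
def pm (g : ℕ) : Fin 5 → Fin 5 → Bool := fun a b => pb g a.val b.val

theorem bx_symm : ∀ a b : Fin 5, bx a.val b.val = bx b.val a.val := by decide

theorem pm_symm (g : ℕ) (a b : Fin 5) : pm g a b = pm g b a := by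
  unfold pm pb
  rw [bx_symm]

theorem ad_pm (g : ℕ) (a b : Fin 5) : ad (pm g) a b = pm g a b := by
  unfold ad
  rw [pm_symm g b a, Bool.or_self]

theorem pm_or (g w : ℕ) : pm (g ||| w) = fun a b => pm g a b || pm w a b := by
  funext a b
  simp [pm, pb, Nat.testBit_or]

/-- value of `P` on the state with mask `g` -/
noncomputable def fV {n : ℕ} (P : SimpleGraph (Fin n) → Prop) (r p : ℕ) (g : ℕ) : ℤ :=
  hv P (sz 4 r p) (pm g)

/-- alternating sum over the subsets of a list of patterns -/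
def altP {k : ℕ} (F : (Fin k → Fin k → Bool) → ℤ) :
    List (Fin k → Fin k → Bool) → (Fin k → Fin k → Bool) → ℤ
  | [], Γ => F Γ
  | V :: Vs, Γ => altP F Vs Γ - altP F Vs (fun a b => Γ a b || V a b)

/-- alternating sum over the subsets of a list of masks -/
def alt' (f : ℕ → ℤ) : List ℕ → ℕ → ℤ
  | [], g => f g
  | w :: ws, g => alt' f ws g - alt' f ws (g ||| w)

theorem sum_altP {k : ℕ} {ι : Type} [DecidableEq ι] (F : (Fin k → Fin k → Bool) → ℤ)
    (O : ι → List (Fin k × Fin k)) (l : List ι) (hl : l.Nodup) (Γ : Fin k → Fin k → Bool) :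
    ∑ I ∈ l.toFinset.powerset, (-1 : ℤ) ^ I.card *
      F (fun a b => Γ a b || decide (∃ j ∈ I, (a, b) ∈ O j)) =
      altP F (l.map (fun j => pat (O j))) Γ := by
  induction l generalizing Γ with
  | nil => simp [altP]
  | cons a l ih =>
    rw [List.nodup_cons] at hl
    have ha : a ∉ l.toFinset := by simpa using hl.1
    rw [List.toFinset_cons, sum_powerset_insert ha, List.map_cons, altP, ← ih hl.2, ← ih hl.2,
      sub_eq_add_neg, ← sum_neg_distrib]
    congr 1
    apply sum_congr rfl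
    intro I hI
    have haI : a ∉ I := fun h => ha (mem_powerset.1 hI h)
    rw [card_insert_of_notMem haI, pow_succ]
    have hF : (fun x y => Γ x y || decide (∃ j ∈ insert a I, (x, y) ∈ O j)) =
        fun x y => (Γ x y || pat (O a) x y) || decide (∃ j ∈ I, (x, y) ∈ O j) := by
      funext x y
      rw [Bool.eq_iff_iff]
      simp only [Bool.or_eq_true, decide_eq_true_eq, pat, mem_insert, exists_eq_or_imp]
      tauto
    rw [hF]
    ring

theorem altP_pm (F : (Fin 5 → Fin 5 → Bool) → ℤ) (ws : List ℕ) (g : ℕ) :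
    altP F (ws.map pm) (pm g) = alt' (fun g => F (pm g)) ws g := by
  induction ws generalizing g with
  | nil => rfl
  | cons w ws ih =>
    rw [List.map_cons, altP, alt', ih, ← pm_or, ih]

/-- the pairs of the mask `w` -/
def Owl (w : ℕ) : List (Fin 5 × Fin 5) :=
  (List.finRange 5 ×ˢ List.finRange 5).filter (fun ab => pm w ab.1 ab.2)

theorem pat_Owl (w : ℕ) : pat (Owl w) = pm w := by
  funext a b
  rw [Bool.eq_iff_iff]
  simp [pat, Owl]

/-- classes with weights -/
def tbl : Bool → List (ℕ × ℕ)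
  | false => [(16, 2), (32, 2), (64, 2), (128, 2), (256, 2), (512, 2), (2048, 1), (4096, 1),
      (8192, 1), (16384, 1)]
  | true => [(16, 2), (96, 4), (384, 4), (512, 2), (2048, 1), (4096, 1), (24576, 2)]

/-- the permutation of the blocks -/
def tau : Bool → Equiv.Perm (Fin 4)
  | false => 1
  | true => Equiv.swap 2 3

/-- selected classes -/
def sel (t : Bool) (fm : ℕ) : List (ℕ × ℕ) := (tbl t).filter (fun w => (fm &&& w.1) == w.1)

/-- action on the parts -/
def tn (t : Bool) (a : ℕ) : ℕ := if t then (if a = 3 then 4 else if a = 4 then 3 else a) else a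

/-- conditions on a relation -/
def okRel (t : Bool) (fm g : ℕ) : Bool :=
  (sel t fm).all (fun w => (g &&& w.1) == 0) && decide (12 ≤ ((sel t fm).map Prod.snd).sum) &&
    (List.range 5).all (fun a => (List.range 5).all (fun b => !(pb g a b) || pb g (tn t a) (tn t b)))

theorem ta_tau (t : Bool) (a : Fin 5) : (ta (tau t) a).val = tn t a.val := by
  revert a
  cases t <;> decide

theorem tbl_inv : ∀ t, ∀ w ∈ tbl t, ∀ A B : Fin 5, pm w.1 A B = true →
    pm w.1 (ta (tau t) A) (ta (tau t) B) = true := by decide +kernel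

theorem tbl_dis : ∀ t, (tbl t).Pairwise (fun w w' => ∀ A B : Fin 5, pm w.1 A B = true →
    pm w'.1 A B = true → False) := by
  decide +kernel

theorem tbl_ne : ∀ t, ∀ w ∈ tbl t, ∃ A B : Fin 5, pm w.1 A B = true := by decide +kernel

theorem tbl_0 : ∀ t, ∀ w ∈ tbl t, ∀ A B : Fin 5, pm w.1 A B = true → A ≠ 0 ∧ B ≠ 0 := by
  decide +kernel

theorem tbl_tr0 : ∀ t, ∀ w ∈ tbl t, ∀ A B A' B' : Fin 5, pm w.1 A B = true → pm w.1 A' B' = true →
    ∃ e < 2, ((A = B ↔ A' = B') ∧ (ta (tau t ^ e) A = A' ∧ ta (tau t ^ e) B = B') ∨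
    (A = B ↔ A' = B') ∧ (ta (tau t ^ e) A = B' ∧ ta (tau t ^ e) B = A')) := by
  decide +kernel

theorem tbl_tr : ∀ t, ∀ w ∈ tbl t, ∀ A B A' B' : Fin 5, pm w.1 A B = true →
    pm w.1 A' B' = true → CC (tau t) A B A' B' := by
  intro t w hw A B A' B' h h'
  obtain ⟨e, he, h2⟩ := tbl_tr0 t w hw A B A' B' h h'
  exact ⟨e, by omega, h2⟩

theorem tbl_cnt (r p : ℕ) : ∀ t, ∀ w ∈ tbl t, w.2 * (p * (p - 1)) ≤ cnt (sz 4 r p) (pm w.1) := by
  have hpp : p * (p - 1) ≤ p * p := Nat.mul_le_mul_left _ (Nat.sub_le _ _)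
  have key : ∀ (w : ℕ), cnt (sz 4 r p) (pm w) =
      ∑ A : Fin 5, ∑ B : Fin 5, if pm w A B = true then
        (if A = B then sz 4 r p A * (sz 4 r p A - 1) else sz 4 r p A * sz 4 r p B) else 0 := by
    intro w
    unfold cnt
    simp only [ad_pm]
  have low : ∀ (w : ℕ) (S : Finset (Fin 5 × Fin 5)),
      (∀ x ∈ S, x.1 ≠ 0 ∧ x.2 ≠ 0 ∧ pm w x.1 x.2 = true) →
      S.card * (p * (p - 1)) ≤ cnt (sz 4 r p) (pm w) := by
    intro w S hS
    rw [key, ← Finset.sum_product']
    rw [Finset.card_eq_sum_ones, Finset.sum_mul]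
    refine le_trans ?_ (Finset.sum_le_sum_of_subset (f := fun x : Fin 5 × Fin 5 =>
      if pm w x.1 x.2 = true then (if x.1 = x.2 then sz 4 r p x.1 * (sz 4 r p x.1 - 1) else
        sz 4 r p x.1 * sz 4 r p x.2) else 0) (Finset.subset_univ S))
    apply Finset.sum_le_sum
    intro x hx
    obtain ⟨h1, h2, h3⟩ := hS x hx
    have hs : ∀ i : Fin 5, i ≠ 0 → sz 4 r p i = p := by
      intro i hi
      obtain ⟨j, rfl⟩ := Fin.exists_succ_eq.2 hi
      rfl
    rw [if_pos h3, hs _ h1, hs _ h2, one_mul]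
    split_ifs
    · exact le_refl _
    · exact hpp
  intro t w hw
  have hcard : ∃ S : Finset (Fin 5 × Fin 5), S.card = w.2 ∧
      ∀ x ∈ S, x.1 ≠ 0 ∧ x.2 ≠ 0 ∧ pm w.1 x.1 x.2 = true := by
    refine ⟨univ.filter (fun x => pm w.1 x.1 x.2 = true), ?_, ?_⟩
    · revert w
      revert t
      decide +kernel
    · intro x hx
      rw [mem_filter] at hx
      have := tbl_0 t w hw x.1 x.2 hx.2
      exact ⟨this.1, this.2, hx.2⟩
  obtain ⟨S, hS, hS'⟩ := hcard
  rw [← hS]
  exact low _ _ hS'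

end Pool.Agent.N593.Karp
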