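import Mathlib
import Pool.Agent.N593.Karp.Fact

set_option autoImplicit false

/-! MP_257582_lc: checker for the contradiction certificate. -/

namespace Pool.Agent.N593.Karp

open Finset

/-- bit test -/
def tb (m n : ℕ) : Bool := Nat.beq (Nat.land (Nat.shiftRight m n) 1) 1

theorem tb_eq (m n : ℕ) : tb m n = m.testBit n := by
  unfold tb
  have h1 : Nat.land (Nat.shiftRight m n) 1 = (m >>> n) % 2 := Nat.and_one_is_mod _
  rw [h1, Bool.eq_iff_iff, Nat.beq_eq, Nat.testBit_eq_decide_div_mod_eq, decide_eq_true_eq,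
    Nat.shiftRight_eq_div_pow]

/-- adjoin an element -/
def ad1 (T m : ℕ) : ℕ := Nat.lor T (Nat.shiftLeft 1 m)

theorem tb_ad1 (T m x : ℕ) (h : tb (ad1 T m) x = true) : tb T x = true ∨ x = m := by
  rw [tb_eq] at *
  have h2 : ad1 T m = T ||| (1 <<< m) := rfl
  rw [h2, Nat.testBit_or, Bool.or_eq_true] at h
  rcases h with h | h
  · exact Or.inl h
  · right
    rw [Nat.shiftLeft_eq, one_mul, Nat.testBit_two_pow] at h
    simpa using (of_decide_eq_true h).symm

/-- image of a mask under a table -/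
def act : List ℕ → ℕ → ℕ → ℕ
  | [], _, acc => acc
  | x :: xs, g, acc => act xs (Nat.shiftRight g 1) (bif tb g 0 then Nat.lor acc x else acc)

theorem act_testBit (T : List ℕ) (g acc j : ℕ) : (act T g acc).testBit j = true ↔
    acc.testBit j = true ∨ ∃ i, ∃ hi : i < T.length, g.testBit i = true ∧
      (T[i]).testBit j = true := by
  induction T generalizing g acc with
  | nil => simp [act]
  | cons x xs ih =>
    rw [act, ih]
    have hs : ∀ i, (Nat.shiftRight g 1).testBit i = g.testBit (i + 1) := by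
      intro i
      have : Nat.shiftRight g 1 = g >>> 1 := rfl
      rw [this, Nat.testBit_shiftRight, add_comm]
    constructor
    · rintro (h | ⟨i, hi, h1, h2⟩)
      · cases hg : tb g 0 with
        | false =>
          rw [hg] at h
          exact Or.inl h
        | true =>
          rw [hg] at h
          have h3 : (acc ||| x).testBit j = true := h
          rw [Nat.testBit_or, Bool.or_eq_true] at h3
          rcases h3 with h3 | h3
          · exact Or.inl h3
          · right
            refine ⟨0, by simp, ?_, by simpa using h3⟩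
            rw [← tb_eq]; exact hg
      · right
        rw [hs] at h1
        exact ⟨i + 1, by simp; omega, h1, by simpa using h2⟩
    · rintro (h | ⟨i, hi, h1, h2⟩)
      · left
        cases hg : tb g 0 with
        | false => exact h
        | true =>
          show (acc ||| x).testBit j = true
          rw [Nat.testBit_or, h, Bool.true_or]
      · cases i with
        | zero =>
          left
          have hg : tb g 0 = true := by rw [tb_eq]; exact h1
          rw [hg]
          show (acc ||| x).testBit j = true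
          simp only [List.getElem_cons_zero] at h2
          rw [Nat.testBit_or, h2, Bool.or_true]
        | succ i =>
          right
          refine ⟨i, by simpa using hi, ?_, by simpa using h2⟩
          rw [hs]; exact h1

/-- table check: `T` is the table of the exchange `i` followed by the permutation `π` -/
def okT (i π : ℕ) (T : List ℕ) : Bool :=
  okP π && decide (i < 5) && decide (T.length = 15) &&
  (List.range 5).all (fun a => (List.range 5).all (fun b =>
    (sp i a).all (fun u => (sp i b).all (fun v =>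
      (T.getD (bx a b) 0).testBit (bx (pv π u) (pv π v)))))) &&
  (List.range 5).all (fun a => (List.range 5).all (fun b => (List.range 15).all (fun j =>
    !(i == 0) || ((T.getD j 0).testBit (bx (pv π a) (pv π b)) == (j == bx a b)))))

/-- domination by a table -/
def domT (T : List ℕ) (g g' : ℕ) : Bool := Nat.beq (Nat.lor (act T g 0) g') g'

theorem bx_lt : ∀ a b : Fin 5, bx a.val b.val < 15 := by decide

theorem domT_okD (i π : ℕ) (T : List ℕ) (g g' : ℕ) (hT : okT i π T = true)
    (h : domT T g g' = true) : okD i π g g' = true := by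
  unfold okT at hT
  simp only [Bool.and_eq_true, List.all_eq_true, decide_eq_true_eq, List.mem_range] at hT
  obtain ⟨⟨⟨⟨h1, h2⟩, h3⟩, h4⟩, -⟩ := hT
  unfold okD
  simp only [Bool.and_eq_true, List.all_eq_true, decide_eq_true_eq, List.mem_range,
    Bool.or_eq_true, Bool.not_eq_true']
  refine ⟨⟨h1, h2⟩, fun a ha b hb => ?_⟩
  by_cases hab : pb g a b = true
  · right
    intro u hu v hv
    have h5 := h4 a ha b hb u hu v hv
    have h6 : (act T g 0).testBit (bx (pv π u) (pv π v)) = true := by
      rw [act_testBit]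
      right
      have hlt : bx a b < T.length := by
        rw [h3]; exact bx_lt ⟨a, ha⟩ ⟨b, hb⟩
      refine ⟨bx a b, hlt, hab, ?_⟩
      rw [List.getD_eq_getElem _ _ hlt] at h5
      exact h5
    unfold domT at h
    rw [Nat.beq_eq] at h
    have h7 : (act T g 0 ||| g').testBit (bx (pv π u) (pv π v)) = true := by
      rw [Nat.testBit_or, h6, Bool.true_or]
    unfold pb
    rw [← h]
    exact h7
  · left
    simpa using hab

theorem actT_okE (π : ℕ) (T : List ℕ) (g g' : ℕ) (hT : okT 0 π T = true)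
    (h : Nat.beq (act T g 0) g' = true) : okE π g g' = true := by
  unfold okT at hT
  simp only [Bool.and_eq_true, List.all_eq_true, decide_eq_true_eq, List.mem_range,
    Bool.or_eq_true, Bool.not_eq_true', beq_iff_eq, beq_eq_false_iff_ne, ne_eq, not_true_eq_false,
    false_or] at hT
  obtain ⟨⟨⟨⟨h1, h2⟩, h3⟩, -⟩, h4⟩ := hT
  unfold okE
  simp only [Bool.and_eq_true, List.all_eq_true, List.mem_range, beq_iff_eq]
  refine ⟨h1, fun a ha b hb => ?_⟩
  rw [Nat.beq_eq] at h
  have hlt : bx a b < T.length := by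
    rw [h3]; exact bx_lt ⟨a, ha⟩ ⟨b, hb⟩
  rw [Bool.eq_iff_iff]
  unfold pb
  rw [← h, act_testBit]
  constructor
  · intro h5
    right
    refine ⟨bx a b, hlt, h5, ?_⟩
    have h6 := h4 a ha b hb (bx a b) (by omega)
    rw [List.getD_eq_getElem _ _ hlt] at h6
    rw [h6]
    simp
  · rintro (h5 | ⟨j, hj, h5, h6⟩)
    · simp at h5
    · have h7 := h4 a ha b hb j (by omega)
      rw [List.getD_eq_getElem _ _ hj] at h7
      rw [h6] at h7
      have h8 : j = bx a b := by simpa using h7.symm
      rw [← h8]; exact h5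

/-- all tables are right -/
def okTs (tabs : List (ℕ × ℕ × List ℕ)) : Bool := tabs.all (fun x => okT x.1 x.2.1 x.2.2)

/-- sum with weights -/
def sW (f : ℕ → ℤ) (l : List (ℕ × ℕ)) : ℤ := (l.map (fun x => (x.1 : ℤ) * f x.2)).sum

/-- lower bound -/
def lo (T : ℕ) : List (ℕ × ℕ) → ℕ
  | [] => 0
  | x :: l => bif tb T x.2 then Nat.add x.1 (lo T l) else lo T l

/-- upper bound -/
def hi (F : ℕ) : List (ℕ × ℕ) → ℕ
  | [] => 0
  | x :: l => bif tb F x.2 then hi F l else Nat.add x.1 (hi F l)

/-- state is right -/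
def Ok (f : ℕ → ℤ) (T F : ℕ) : Prop :=
  (∀ m, tb T m = true → f m = 1) ∧ ∀ m, tb F m = true → f m = 0

theorem Ok.addT {f : ℕ → ℤ} {T F : ℕ} (h : Ok f T F) (m : ℕ) (hm : f m = 1) :
    Ok f (ad1 T m) F := by
  refine ⟨fun x hx => ?_, h.2⟩
  rcases tb_ad1 T m x hx with h1 | h1
  · exact h.1 x h1
  · rw [h1, hm]

theorem Ok.addF {f : ℕ → ℤ} {T F : ℕ} (h : Ok f T F) (m : ℕ) (hm : f m = 0) :
    Ok f T (ad1 F m) := by
  refine ⟨h.1, fun x hx => ?_⟩
  rcases tb_ad1 F m x hx with h1 | h1
  · exact h.2 x h1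
  · rw [h1, hm]

theorem lo_le {f : ℕ → ℤ} (hf : ∀ m, f m = 0 ∨ f m = 1) {T F : ℕ} (h : Ok f T F)
    (l : List (ℕ × ℕ)) : (lo T l : ℤ) ≤ sW f l := by
  induction l with
  | nil => simp [lo, sW]
  | cons x l ih =>
    have e : sW f (x :: l) = (x.1 : ℤ) * f x.2 + sW f l := by simp [sW]
    rw [e, lo]
    cases hx : tb T x.2 with
    | true =>
      rw [h.1 _ hx, mul_one]
      show ((x.1 + lo T l : ℕ) : ℤ) ≤ _
      push_cast
      omega
    | false =>
      show (lo T l : ℤ) ≤ _
      rcases hf x.2 with h1 | h1 <;> rw [h1] <;> omega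

theorem le_hi {f : ℕ → ℤ} (hf : ∀ m, f m = 0 ∨ f m = 1) {T F : ℕ} (h : Ok f T F)
    (l : List (ℕ × ℕ)) : sW f l ≤ (hi F l : ℤ) := by
  induction l with
  | nil => simp [hi, sW]
  | cons x l ih =>
    have e : sW f (x :: l) = (x.1 : ℤ) * f x.2 + sW f l := by simp [sW]
    rw [e, hi]
    cases hx : tb F x.2 with
    | true =>
      rw [h.2 _ hx, mul_zero, zero_add]
      exact ih
    | false =>
      show _ ≤ ((x.1 + hi F l : ℕ) : ℤ)
      push_cast
      rcases hf x.2 with h1 | h1 <;> rw [h1] <;> omega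

/-- the relation `pos = neg` is violated -/
def bad (L : List (ℕ × ℕ) × List (ℕ × ℕ)) (T F : ℕ) : Bool :=
  Nat.ble (Nat.succ (hi F L.1)) (lo T L.2) || Nat.ble (Nat.succ (hi F L.2)) (lo T L.1)

theorem bad_false {f : ℕ → ℤ} (hf : ∀ m, f m = 0 ∨ f m = 1) {T F : ℕ} (h : Ok f T F)
    (L : List (ℕ × ℕ) × List (ℕ × ℕ)) (hL : sW f L.1 = sW f L.2) (hb : bad L T F = true) :
    False := by
  unfold bad at hb
  rw [Bool.or_eq_true, Nat.ble_eq, Nat.ble_eq] at hb
  have h1 := lo_le hf h L.1
  have h2 := lo_le hf h L.2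
  have h3 := le_hi hf h L.1
  have h4 := le_hi hf h L.2
  omega

/-- steps -/
inductive St
  | up (k a b : ℕ)
  | dn (k a b : ℕ)
  | rl (j v : ℕ) (b : Bool)
  | z (i m : ℕ)
  | u (i m : ℕ)

/-- final contradictions -/
inductive Fi
  | ci (k a b : ℕ)
  | cr (j : ℕ)

section run

/-- look up a table and check the domination -/
def domI : List (ℕ × ℕ × List ℕ) → ℕ → ℕ → ℕ → Bool
  | [], _, _, _ => false
  | x :: _, 0, a, b => domT x.2.2 a b
  | _ :: xs, t + 1, a, b => domI xs t a b

variable (tabs : List (ℕ × ℕ × List ℕ)) (rels : List (List (ℕ × ℕ) × List (ℕ × ℕ)))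

/-- run steps -/
def runK (k : ℕ → ℕ → Bool) : List St → ℕ → ℕ → Bool
  | [], T, F => k T F
  | .up t a b :: ss, T, F => tb T a && (domI tabs t a b && runK k ss (ad1 T b) F)
  | .dn t a b :: ss, T, F => tb F b && (domI tabs t a b && runK k ss T (ad1 F a))
  | .rl j v true :: ss, T, F =>
    bad (rels.getD j ([], [])) T (ad1 F v) && runK k ss (ad1 T v) F
  | .rl j v false :: ss, T, F =>
    bad (rels.getD j ([], [])) (ad1 T v) F && runK k ss T (ad1 F v)
  | .z i m :: ss, T, F => okZ i m && runK k ss T (ad1 F m)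
  | .u i m :: ss, T, F => okU i m && runK k ss (ad1 T m) F

/-- final check -/
def fin (c : Fi) (T F : ℕ) : Bool :=
  match c with
  | .ci t a b => tb T a && (tb F b && domI tabs t a b)
  | .cr j => bad (rels.getD j ([], [])) T F

/-- check a list of items -/
def chk (k : ℕ → ℕ → Bool) : List (ℕ × Bool × List St × Fi) → ℕ → ℕ → Bool
  | [], T, F => k T F
  | (v, true, ss, c) :: l, T, F =>
    runK tabs rels (fin tabs rels c) ss T (ad1 F v) && chk k l (ad1 T v) F
  | (v, false, ss, c) :: l, T, F =>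
    runK tabs rels (fin tabs rels c) ss (ad1 T v) F && chk k l T (ad1 F v)

end run

/-- the data are right for `f` -/
structure Good (f : ℕ → ℤ) (tabs : List (ℕ × ℕ × List ℕ))
    (rels : List (List (ℕ × ℕ) × List (ℕ × ℕ))) : Prop where
  h01 : ∀ m, f m = 0 ∨ f m = 1
  hdom : ∀ t a b, domI tabs t a b = true → f a ≤ f b
  hrel : ∀ L ∈ rels, sW f L.1 = sW f L.2
  hz : ∀ i m, okZ i m = true → f m = 0
  hu : ∀ i m, okU i m = true → f m = 1

theorem Good.rel {f : ℕ → ℤ} {tabs : List (ℕ × ℕ × List ℕ)}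
    {rels : List (List (ℕ × ℕ) × List (ℕ × ℕ))} (G : Good f tabs rels) (j : ℕ) :
    sW f (rels.getD j ([], [])).1 = sW f (rels.getD j ([], [])).2 := by
  by_cases h : j < rels.length
  · rw [List.getD_eq_getElem _ _ h]
    exact G.hrel _ (List.getElem_mem h)
  · rw [List.getD_eq_default _ _ (by omega)]

theorem runK_ok {f : ℕ → ℤ} {tabs : List (ℕ × ℕ × List ℕ)}
    {rels : List (List (ℕ × ℕ) × List (ℕ × ℕ))} (G : Good f tabs rels) (k : ℕ → ℕ → Bool)
    (ss : List St) : ∀ T F : ℕ, Ok f T F → runK tabs rels k ss T F = true →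
      ∃ T' F', Ok f T' F' ∧ k T' F' = true := by
  induction ss with
  | nil => intro T F h hk; exact ⟨T, F, h, hk⟩
  | cons s ss ih =>
    intro T F h hk
    cases s with
    | up t a b =>
      simp only [runK, Bool.and_eq_true] at hk
      obtain ⟨h1, h2, h3⟩ := hk
      refine ih _ _ (h.addT b ?_) h3
      have h4 := G.hdom _ _ _ h2
      rw [h.1 _ h1] at h4
      rcases G.h01 b with h5 | h5
      · rw [h5] at h4; norm_num at h4
      · exact h5
    | dn t a b =>
      simp only [runK, Bool.and_eq_true] at hk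
      obtain ⟨h1, h2, h3⟩ := hk
      refine ih _ _ (h.addF a ?_) h3
      have h4 := G.hdom _ _ _ h2
      rw [h.2 _ h1] at h4
      rcases G.h01 a with h5 | h5
      · exact h5
      · rw [h5] at h4; norm_num at h4
    | rl j v b =>
      cases b with
      | true =>
        simp only [runK, Bool.and_eq_true] at hk
        obtain ⟨h1, h2⟩ := hk
        refine ih _ _ (h.addT v ?_) h2
        rcases G.h01 v with h5 | h5
        · exact (bad_false G.h01 (h.addF v h5) _ (G.rel j) h1).elim
        · exact h5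
      | false =>
        simp only [runK, Bool.and_eq_true] at hk
        obtain ⟨h1, h2⟩ := hk
        refine ih _ _ (h.addF v ?_) h2
        rcases G.h01 v with h5 | h5
        · exact h5
        · exact (bad_false G.h01 (h.addT v h5) _ (G.rel j) h1).elim
    | z i m =>
      simp only [runK, Bool.and_eq_true] at hk
      exact ih _ _ (h.addF m (G.hz _ _ hk.1)) hk.2
    | u i m =>
      simp only [runK, Bool.and_eq_true] at hk
      exact ih _ _ (h.addT m (G.hu _ _ hk.1)) hk.2

theorem fin_ok {f : ℕ → ℤ} {tabs : List (ℕ × ℕ × List ℕ)}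
    {rels : List (List (ℕ × ℕ) × List (ℕ × ℕ))} (G : Good f tabs rels) (c : Fi) (T F : ℕ)
    (h : Ok f T F) (hc : fin tabs rels c T F = true) : False := by
  cases c with
  | ci t a b =>
    simp only [fin, Bool.and_eq_true] at hc
    have h4 := G.hdom _ _ _ hc.2.2
    rw [h.1 _ hc.1, h.2 _ hc.2.1] at h4
    norm_num at h4
  | cr j => exact bad_false G.h01 h _ (G.rel j) hc

theorem chk_ok {f : ℕ → ℤ} {tabs : List (ℕ × ℕ × List ℕ)}
    {rels : List (List (ℕ × ℕ) × List (ℕ × ℕ))} (G : Good f tabs rels) (k : ℕ → ℕ → Bool)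
    (l : List (ℕ × Bool × List St × Fi)) : ∀ T F : ℕ, Ok f T F →
      chk tabs rels k l T F = true → ∃ T' F', Ok f T' F' ∧ k T' F' = true := by
  induction l with
  | nil => intro T F h hk; exact ⟨T, F, h, hk⟩
  | cons x l ih =>
    intro T F h hk
    obtain ⟨v, b, ss, c⟩ := x
    cases b with
    | true =>
      simp only [chk, Bool.and_eq_true] at hk
      refine ih _ _ (h.addT v ?_) hk.2
      rcases G.h01 v with h5 | h5
      · obtain ⟨T', F', h6, h7⟩ := runK_ok G _ ss _ _ (h.addF v h5) hk.1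
        exact (fin_ok G c T' F' h6 h7).elim
      · exact h5
    | false =>
      simp only [chk, Bool.and_eq_true] at hk
      refine ih _ _ (h.addF v ?_) hk.2
      rcases G.h01 v with h5 | h5
      · exact h5
      · obtain ⟨T', F', h6, h7⟩ := runK_ok G _ ss _ _ (h.addT v h5) hk.1
        exact (fin_ok G c T' F' h6 h7).elim

theorem Ok.zero (f : ℕ → ℤ) : Ok f 0 0 := by
  refine ⟨fun m hm => ?_, fun m hm => ?_⟩ <;>
  · rw [tb_eq] at hm; simp at hm

/-- whole certificate -/
theorem cert_false {f : ℕ → ℤ} {tabs : List (ℕ × ℕ × List ℕ)}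
    {rels : List (List (ℕ × ℕ) × List (ℕ × ℕ))} (G : Good f tabs rels) (pre : List St)
    (l : List (ℕ × Bool × List St × Fi)) (ss : List St) (c : Fi)
    (h : runK tabs rels (chk tabs rels (runK tabs rels (fin tabs rels c) ss) l) pre 0 0 = true) :
    False := by
  obtain ⟨T, F, h1, h2⟩ := runK_ok G _ pre 0 0 (Ok.zero f) h
  obtain ⟨T', F', h3, h4⟩ := chk_ok G _ l T F h1 h2
  obtain ⟨T'', F'', h5, h6⟩ := runK_ok G _ ss T' F' h3 h4
  exact fin_ok G c T'' F'' h5 h6

/-! relations -/

/-- insert a term: entries `(m, number of plus, number of minus)` -/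
def ins (m : ℕ) (s : Bool) : List (ℕ × ℕ × ℕ) → List (ℕ × ℕ × ℕ)
  | [] => [(m, bif s then (1, 0) else (0, 1))]
  | x :: l => bif Nat.beq x.1 m then
      (x.1, bif s then (Nat.succ x.2.1, x.2.2) else (x.2.1, Nat.succ x.2.2)) :: l
    else x :: ins m s l

/-- value -/
def vE (f : ℕ → ℤ) (l : List (ℕ × ℕ × ℕ)) : ℤ :=
  (l.map (fun x => ((x.2.1 : ℤ) - (x.2.2 : ℤ)) * f x.1)).sum

/-- sign -/
def sg (s : Bool) : ℤ := bif s then 1 else -1

theorem vE_ins (f : ℕ → ℤ) (m : ℕ) (s : Bool) (l : List (ℕ × ℕ × ℕ)) :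
    vE f (ins m s l) = sg s * f m + vE f l := by
  induction l with
  | nil => cases s <;> simp [ins, vE, sg]
  | cons x l ih =>
    have e : ∀ y (l : List (ℕ × ℕ × ℕ)), vE f (y :: l) =
        ((y.2.1 : ℤ) - (y.2.2 : ℤ)) * f y.1 + vE f l := fun y l => by simp [vE]
    rw [ins]
    cases hx : Nat.beq x.1 m with
    | true =>
      rw [Nat.beq_eq] at hx
      rw [cond_true, e, e, hx]
      cases s
      · simp only [cond_false, sg]; push_cast; ring
      · simp only [cond_true, sg]; push_cast; ring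
    | false =>
      rw [cond_false, e, e, ih]
      ring

/-- look up a table and check the image -/
def eqI : List (ℕ × ℕ × List ℕ) → ℕ → ℕ → ℕ → Bool
  | [], _, _, _ => false
  | x :: _, 0, a, b => Nat.beq x.1 0 && Nat.beq (act x.2.2 a 0) b
  | _ :: xs, t + 1, a, b => eqI xs t a b

/-- process the terms of an alternating sum; certificates `(table, representative)` are consumed
and the merged form is passed on -/
def tms (tabs : List (ℕ × ℕ × List ℕ)) : List ℕ → ℕ → Bool → List (ℕ × ℕ) →
    List (ℕ × ℕ × ℕ) → (List (ℕ × ℕ) → List (ℕ × ℕ × ℕ) → Bool) → Bool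
  | [], _, _, [], _, _ => false
  | [], g, s, c :: cs, acc, k => eqI tabs c.1 g c.2 && k cs (ins c.2 s acc)
  | w :: ws, g, s, cs, acc, k =>
    tms tabs ws g s cs acc (fun cs' acc' => tms tabs ws (Nat.lor g w) (!s) cs' acc' k)

theorem tms_ok {f : ℕ → ℤ} {tabs : List (ℕ × ℕ × List ℕ)}
    (hf : ∀ t a b, eqI tabs t a b = true → f a = f b)
    (ws : List ℕ) : ∀ (g : ℕ) (s : Bool) (cs : List (ℕ × ℕ)) (acc : List (ℕ × ℕ × ℕ))
      (k : List (ℕ × ℕ) → List (ℕ × ℕ × ℕ) → Bool), tms tabs ws g s cs acc k = true →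
      ∃ cs' acc', k cs' acc' = true ∧ vE f acc' = vE f acc + sg s * alt' f ws g := by
  induction ws with
  | nil =>
    intro g s cs acc k h
    cases cs with
    | nil => simp [tms] at h
    | cons c cs =>
      simp only [tms, Bool.and_eq_true] at h
      refine ⟨cs, _, h.2, ?_⟩
      rw [vE_ins, alt', hf _ _ _ h.1]
      ring
  | cons w ws ih =>
    intro g s cs acc k h
    rw [tms] at h
    obtain ⟨cs1, acc1, h1, h2⟩ := ih _ _ _ _ _ h
    obtain ⟨cs2, acc2, h3, h4⟩ := ih _ _ _ _ _ h1
    refine ⟨cs2, acc2, h3, ?_⟩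
    have h5 : Nat.lor g w = g ||| w := rfl
    rw [h4, h2, alt', h5]
    cases s <;> simp only [sg, Bool.not_true, Bool.not_false, cond_true, cond_false] <;> ring

/-- positive and negative parts -/
def nrm : List (ℕ × ℕ × ℕ) → List (ℕ × ℕ) × List (ℕ × ℕ)
  | [] => ([], [])
  | x :: l =>
    let r := nrm l
    bif Nat.ble x.2.1 x.2.2 then
      (bif Nat.ble x.2.2 x.2.1 then r else (r.1, (Nat.sub x.2.2 x.2.1, x.1) :: r.2))
    else ((Nat.sub x.2.1 x.2.2, x.1) :: r.1, r.2)

theorem nrm_val (f : ℕ → ℤ) (l : List (ℕ × ℕ × ℕ)) :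
    vE f l = sW f (nrm l).1 - sW f (nrm l).2 := by
  have e : ∀ y (l : List (ℕ × ℕ × ℕ)), vE f (y :: l) =
      ((y.2.1 : ℤ) - (y.2.2 : ℤ)) * f y.1 + vE f l := fun y l => by simp [vE]
  have e2 : ∀ y (l : List (ℕ × ℕ)), sW f (y :: l) = (y.1 : ℤ) * f y.2 + sW f l :=
    fun y l => by simp [sW]
  have hsub : ∀ a b : ℕ, Nat.sub a b = a - b := fun a b => rfl
  induction l with
  | nil => simp [vE, nrm, sW]
  | cons x l ih =>
    rw [e, nrm, ih]
    cases h1 : Nat.ble x.2.1 x.2.2 with
    | true =>
      cases h2 : Nat.ble x.2.2 x.2.1 with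
      | true =>
        rw [Nat.ble_eq] at h1 h2
        have h3 : x.2.1 = x.2.2 := le_antisymm h1 h2
        simp only [cond_true, h3]
        ring
      | false =>
        rw [Nat.ble_eq] at h1
        simp only [cond_true, cond_false, e2, hsub]
        push_cast [h1]
        ring
    | false =>
      have h3 : x.2.2 ≤ x.2.1 := by
        by_contra h4
        have : Nat.ble x.2.1 x.2.2 = true := by rw [Nat.ble_eq]; omega
        rw [this] at h1
        exact Bool.noConfusion h1
      simp only [cond_false, e2, hsub]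
      push_cast [h3]
      ring

/-- equality of lists of pairs -/
def eqL : List (ℕ × ℕ) → List (ℕ × ℕ) → Bool
  | [], [] => true
  | x :: l, y :: l' => Nat.beq x.1 y.1 && (Nat.beq x.2 y.2 && eqL l l')
  | _, _ => false

theorem eqL_eq (l l' : List (ℕ × ℕ)) (h : eqL l l' = true) : l = l' := by
  induction l generalizing l' with
  | nil => cases l' with
    | nil => rfl
    | cons y l' => simp [eqL] at h
  | cons x l ih => cases l' with
    | nil => simp [eqL] at h
    | cons y l' =>
      simp only [eqL, Bool.and_eq_true, Nat.beq_eq] at h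
      rw [ih _ h.2.2, Prod.ext h.1 h.2.1]

/-- check one relation -/
def okR (tabs : List (ℕ × ℕ × List ℕ)) (x : Bool × ℕ × ℕ × List (ℕ × ℕ))
    (L : List (ℕ × ℕ) × List (ℕ × ℕ)) : Bool :=
  okRel x.1 x.2.1 x.2.2.1 && tms tabs ((sel x.1 x.2.1).map Prod.fst) x.2.2.1 true x.2.2.2 []
    (fun _ acc => eqL (nrm acc).1 L.1 && eqL (nrm acc).2 L.2)

/-- check relations -/
def okRs (tabs : List (ℕ × ℕ × List ℕ)) : List (Bool × ℕ × ℕ × List (ℕ × ℕ)) →
    List (List (ℕ × ℕ) × List (ℕ × ℕ)) → Bool
  | [], [] => true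
  | x :: xs, L :: Ls => okR tabs x L && okRs tabs xs Ls
  | _, _ => false

theorem okRs_ok {f : ℕ → ℤ} {tabs : List (ℕ × ℕ × List ℕ)}
    (hf : ∀ t a b, eqI tabs t a b = true → f a = f b)
    (hr : ∀ t fm g, okRel t fm g = true → alt' f ((sel t fm).map Prod.fst) g = 0)
    (xs : List (Bool × ℕ × ℕ × List (ℕ × ℕ))) : ∀ Ls : List (List (ℕ × ℕ) × List (ℕ × ℕ)),
      okRs tabs xs Ls = true → ∀ L ∈ Ls, sW f L.1 = sW f L.2 := by
  induction xs with
  | nil =>
    intro Ls h L hL
    cases Ls with
    | nil => simp at hL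
    | cons L' Ls => simp [okRs] at h
  | cons x xs ih =>
    intro Ls h L hL
    cases Ls with
    | nil => simp at hL
    | cons L' Ls =>
      simp only [okRs, Bool.and_eq_true] at h
      rcases List.mem_cons.1 hL with rfl | hL
      · have h1 := h.1
        unfold okR at h1
        rw [Bool.and_eq_true] at h1
        obtain ⟨h2, h3⟩ := h1
        obtain ⟨cs', acc, h4, h5⟩ := tms_ok hf _ _ _ _ _ _ h3
        rw [Bool.and_eq_true] at h4
        rw [hr _ _ _ h2, nrm_val, eqL_eq _ _ h4.1, eqL_eq _ _ h4.2] at h5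
        simp only [vE, List.map_nil, List.sum_nil, mul_zero, add_zero] at h5
        linarith
      · exact ih Ls h.2 L hL

theorem domI_ok (tabs : List (ℕ × ℕ × List ℕ)) (hT : okTs tabs = true) (t a b : ℕ)
    (h : domI tabs t a b = true) : ∃ i π, okD i π a b = true := by
  induction tabs generalizing t with
  | nil => simp [domI] at h
  | cons x xs ih =>
    unfold okTs at hT
    rw [List.all_cons, Bool.and_eq_true] at hT
    cases t with
    | zero => exact ⟨_, _, domT_okD _ _ _ _ _ hT.1 h⟩
    | succ t => exact ih hT.2 t h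

theorem eqI_ok (tabs : List (ℕ × ℕ × List ℕ)) (hT : okTs tabs = true) (t a b : ℕ)
    (h : eqI tabs t a b = true) : ∃ π, okE π a b = true := by
  induction tabs generalizing t with
  | nil => simp [eqI] at h
  | cons x xs ih =>
    unfold okTs at hT
    rw [List.all_cons, Bool.and_eq_true] at hT
    cases t with
    | zero =>
      simp only [eqI, Bool.and_eq_true, Nat.beq_eq] at h
      obtain ⟨h1, h2⟩ := h
      have h3 := hT.1
      rw [h1] at h3
      exact ⟨_, actT_okE _ _ _ _ h3 (by rw [Nat.beq_eq]; exact h2)⟩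
    | succ t => exact ih hT.2 t h

end Pool.Agent.N593.Karp
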