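import Mathlib
import Pool.Agent.N593.Karp.Data

set_option autoImplicit false

/-! MP_257582_lc: the certificate is accepted, and the conclusion for the values of `P`. -/

namespace Pool.Agent.N593.Karp

open Finset
open Pool.Agent.H119R2.Kp

theorem run_tabs : okTs tabs = true := by decide +kernel

theorem run_rels : okRs tabs rsrc rels = true := by decide +kernel

theorem run_all : runK tabs rels (chk tabs rels (runK tabs rels (fin tabs rels lfi) lst) itms)
    pre 0 0 = true := by decide +kernel

/-- the system of relations has no solution -/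
theorem core {n q : ℕ} {P : SimpleGraph (Fin n) → Prop} (hP : GP n q P) (hS : Star n P) (r p : ℕ)
    [hpf : Fact p.Prime] (hp : 2 < p) (hr : 0 < r) (hrp : r ≤ p) (hn : r + 4 * p = n)
    (hq : q < 6 * (p * (p - 1))) : False := by
  refine cert_false (f := fV P r p) (tabs := tabs) (rels := rels) ?_ pre itms lst lfi run_all
  refine ⟨fun m => ?_, fun t a b h => ?_, ?_, fun i m h => ?_, fun i m h => ?_⟩
  · unfold fV
    exact hv01 _ _ _
  · obtain ⟨i, π, h1⟩ := domI_ok tabs run_tabs t a b h
    exact dom hP r p hrp i π a b h1
  · refine okRs_ok (fun t a b h => ?_) (fun t fm g h => ?_) _ _ run_rels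
    · obtain ⟨π, h1⟩ := eqI_ok tabs run_tabs t a b h
      exact per hP r p π a b h1
    · exact relM hP r p hp hn hq t fm g h
  · exact zer hP hS r p hr (by omega) i m h
  · exact uni hP hS r p hr (by omega) hn i m h

end Pool.Agent.N593.Karp
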