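import Mathlib
import Pool.Agent.H119R2.Kp.Defs
import Pool.Agent.H119R2.Kp.D
import Pool.Agent.H119R2.Kp.D4
import Pool.Agent.H119R2.Kp.Base
import Pool.Agent.H119R2.Kp.NT
import Pool.Agent.N593.Karp.Run

set_option autoImplicit false

/-! MP_257582_lc: the bound `3/8`, from `core`, `kss`, `prime_base`, `prime_between`,
`dec_of_strategy`. -/

namespace Pool.Agent.N593.Karp

open Finset
open Pool.Agent.H98R2.Ev (EV toG NE)
open Pool.Agent.H119R2.Kp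

private theorem L5 (δ : ℝ) (hδ0 : 0 < δ) (hδ1 : δ ≤ 1 / 1000) :
    3 / 8 - 10 * δ ≤ (3 / 8 - 10 * δ / 2) * (1 - δ) ^ 2 := by
  have h1 : (3 / 8 - 10 * δ / 2) * (1 - δ) ^ 2 =
      3 / 8 - 10 * δ + (5 - 3 / 4) * δ + (10 + 3 / 8) * δ ^ 2 - 5 * δ ^ 3 := by ring
  rw [h1]
  have h2 : 0 < δ ^ 2 := by positivity
  have h3 : δ ^ 3 ≤ δ ^ 2 := by
    have : δ ^ 3 = δ * δ ^ 2 := by ring
    rw [this]
    have := mul_le_mul_of_nonneg_right hδ1 h2.le
    linarith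
  linarith

/-- the star case, by `core` -/
theorem star_case (e : ℝ) (he : 0 < e) (he1 : e ≤ 1 / 100) : ∃ N : ℕ, ∀ n : ℕ, N ≤ n →
    ∀ (q : ℕ) (P : SimpleGraph (Fin n) → Prop), GP n q P → Star n P →
      (q : ℝ) < (3 / 8 - e / 2) * (n : ℝ) ^ 2 → False := by
  set δ := e / 10 with hδ
  have hδ0 : 0 < δ := by positivity
  have hδ1 : δ ≤ 1 / 1000 := by rw [hδ]; linarith
  have heδ : e = 10 * δ := by rw [hδ]; ring
  obtain ⟨N₀, hN₀⟩ := prime_between δ hδ0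
  refine ⟨6 * N₀ + ⌈4 / e⌉₊ + 100, fun n hn q P hP hS hq => ?_⟩
  have hn' : (6 * (N₀ : ℝ) + ⌈4 / e⌉₊ + 100) ≤ n := by exact_mod_cast hn
  have hceil : 4 / e ≤ (⌈4 / e⌉₊ : ℝ) := Nat.le_ceil _
  have hN0 : (0 : ℝ) ≤ N₀ := Nat.cast_nonneg _
  have hc0 : (0 : ℝ) ≤ (⌈4 / e⌉₊ : ℝ) := Nat.cast_nonneg _
  have hn100 : (100 : ℝ) ≤ n := by linarith
  have hn6 : 6 * (N₀ : ℝ) ≤ n := by linarith
  have hne : 4 / e ≤ n := by linarith
  have hne' : 4 ≤ e * n := by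
    rw [div_le_iff₀ he] at hne
    linarith
  obtain ⟨t, ht⟩ : ∃ t : ℝ, (n : ℝ) = t := ⟨_, rfl⟩
  rw [ht] at hn' hn100 hn6 hne hne' hq
  have ht0 : 0 < t := by linarith
  have hδt : δ * t ≤ t / 1000 := by
    have := mul_le_mul_of_nonneg_right hδ1 ht0.le
    linarith
  -- the prime p
  obtain ⟨p, hp, hp1, hp2⟩ := hN₀ ((1 - δ) * t / 4) (by linarith)
  have hp0 : (0 : ℝ) ≤ p := Nat.cast_nonneg p
  have hp2' : 4 * (p : ℝ) < t := by
    have h1 : (1 + δ) * ((1 - δ) * t / 4) = t / 4 - δ ^ 2 * t / 4 := by ring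
    rw [h1] at hp2
    have : 0 ≤ δ ^ 2 * t := by positivity
    linarith
  have hp1' : t - δ * t < 4 * (p : ℝ) := by linarith
  have h4p : 4 * p < n := by
    rw [← Nat.cast_lt (α := ℝ)]
    push_cast
    rw [ht]
    linarith
  obtain ⟨r, hr⟩ : ∃ r : ℕ, r + 4 * p = n := ⟨n - 4 * p, by omega⟩
  have hrr : (r : ℝ) = t - 4 * p := by
    have : ((r + 4 * p : ℕ) : ℝ) = t := by rw [hr, ht]
    push_cast at this
    linarith
  have hr0 : 0 < r := by omega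
  have hrp : r ≤ p := by
    have : (r : ℝ) ≤ p := by rw [hrr]; linarith
    exact_mod_cast this
  have hp3 : 2 < p := by
    have : (2 : ℝ) < p := by linarith
    exact_mod_cast this
  have ht2 : 0 < t ^ 2 := by positivity
  have hqp : q < 6 * (p * (p - 1)) := by
    have h1 : (q : ℝ) < ((6 * (p * (p - 1)) : ℕ) : ℝ) := by
      have hp1n : 1 ≤ p := by omega
      push_cast [Nat.cast_sub hp1n]
      have h2 : (q : ℝ) < (3 / 8 - 5 * δ) * t ^ 2 := by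
        have : (3 / 8 - e / 2) * t ^ 2 = (3 / 8 - 5 * δ) * t ^ 2 := by rw [heδ]; ring
        linarith
      have h3 : (t - δ * t) ^ 2 ≤ (4 * (p : ℝ)) ^ 2 := by
        apply pow_le_pow_left₀ _ hp1'.le
        linarith
      have h4 : (t - δ * t) ^ 2 = t ^ 2 - 2 * (δ * t ^ 2) + δ ^ 2 * t ^ 2 := by ring
      have h5 : 0 ≤ δ ^ 2 * t ^ 2 := by positivity
      have h6 : (4 * (p : ℝ)) ^ 2 = 16 * (p * p) := by ring
      have h7 : 6 * ((p : ℝ) * (p - 1)) = 6 * (p * p) - 6 * p := by ring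
      have h8 : (3 / 8 - 5 * δ) * t ^ 2 = 3 / 8 * t ^ 2 - 5 * (δ * t ^ 2) := by ring
      have h9 : 4 * t ≤ 10 * (δ * t ^ 2) := by
        have := mul_le_mul_of_nonneg_right hne' ht0.le
        have h10 : e * t * t = 10 * (δ * t ^ 2) := by rw [heδ]; ring
        linarith
      rw [h7]
      rw [h8] at h2
      rw [h4, h6] at h3
      linarith
    exact_mod_cast h1
  have : Fact p.Prime := ⟨hp⟩
  exact core hP hS r p hp3 hr0 hrp hr hqp

theorem final : ∀ ε : ℝ, 0 < ε → ∃ N : ℕ, ∀ n : ℕ, N ≤ n →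
    ∀ P : SimpleGraph (Fin n) → Prop,
      (∀ (σ : Fin n ≃ Fin n) (G : SimpleGraph (Fin n)), P G → P (G.map σ.toEmbedding)) →
      (∀ G H : SimpleGraph (Fin n), G ≤ H → P G → P H) →
      (∃ G, P G) → (∃ G, ¬ P G) →
      ∀ s : Finset (Sym2 (Fin n)) → SimpleGraph (Fin n) → Sym2 (Fin n),
      (∀ (Q : Finset (Sym2 (Fin n))) (G H : SimpleGraph (Fin n)),
        (∀ e ∈ Q, (e ∈ G.edgeSet ↔ e ∈ H.edgeSet)) → s Q G = s Q H) →
      ∀ q : ℕ, (q : ℝ) < (3 / 8 - ε) * (n : ℝ) ^ 2 →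
        ∃ G H : SimpleGraph (Fin n),
          (∀ e ∈ (fun Q : Finset (Sym2 (Fin n)) => insert (s Q G) Q)^[q]
            (∅ : Finset (Sym2 (Fin n))), (e ∈ G.edgeSet ↔ e ∈ H.edgeSet)) ∧ P G ∧ ¬ P H := by
  intro ε hε
  set e := min ε (1 / 100) with he
  have he0 : 0 < e := lt_min hε (by norm_num)
  have he1 : e ≤ 1 / 100 := min_le_right _ _
  have heε : e ≤ ε := min_le_left _ _
  set δ := e / 10 with hδ
  have hδ0 : 0 < δ := by positivity
  have hδ1 : δ ≤ 1 / 1000 := by rw [hδ]; linarith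
  have heδ : e = 10 * δ := by rw [hδ]; ring
  obtain ⟨N₀, hN₀⟩ := prime_between δ hδ0
  obtain ⟨N₁, hN₁⟩ := star_case e he0 he1
  refine ⟨2 * N₀ + 2 * N₁ + 100, fun n hn P hiso hmono h1 h0 s hs q hq => ?_⟩
  by_contra hcon
  have hdec : Dec q (fun S : Finset (EV (Fin n)) => P (toG S)) := by
    refine dec_of_strategy q P s hs fun G H hGH hPG => ?_
    by_contra hPH
    exact hcon ⟨G, H, hGH, hPG, hPH⟩
  have hGP : GP n q P := ⟨hmono, hiso, hdec⟩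
  have hn' : (2 * (N₀ : ℝ) + 2 * N₁ + 100) ≤ n := by exact_mod_cast hn
  have hN0 : (0 : ℝ) ≤ N₀ := Nat.cast_nonneg _
  have hN1 : (0 : ℝ) ≤ N₁ := Nat.cast_nonneg _
  obtain ⟨t, ht⟩ : ∃ t : ℝ, (n : ℝ) = t := ⟨_, rfl⟩
  rw [ht] at hn' hq
  have ht100 : 100 ≤ t := by linarith
  have ht2 : 0 < t ^ 2 := by positivity
  have hq' : (q : ℝ) < (3 / 8 - 10 * δ) * t ^ 2 := by
    refine lt_of_lt_of_le hq ?_
    rw [← heδ]
    apply mul_le_mul_of_nonneg_right _ ht2.le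
    linarith
  have hδt : δ * t ≤ t / 1000 := by
    have := mul_le_mul_of_nonneg_right hδ1 (show 0 ≤ t by linarith)
    linarith
  obtain ⟨m, hm, hm1, hm2⟩ := hN₀ ((1 - δ) * t) (by linarith)
  have hmt : (m : ℝ) ≤ t := by
    have h2 : (1 + δ) * ((1 - δ) * t) = t - δ ^ 2 * t := by ring
    rw [h2] at hm2
    have : 0 ≤ δ ^ 2 * t := by positivity
    linarith
  have hmn : m ≤ n := by
    rw [← Nat.cast_le (α := ℝ), ht]
    exact hmt
  have : Fact m.Prime := ⟨hm⟩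
  rcases kss P hGP h1 h0 m hm.one_lt.le hmn with ⟨n', hn1, hn2, P', hP', hS'⟩ | ⟨P', hP', h1', h0'⟩
  · refine hN₁ n' ?_ q P' hP' hS' ?_
    · have h1 : (N₁ : ℝ) ≤ n' := by
        have h2 : (m : ℝ) < n' := by exact_mod_cast hn1
        linarith
      exact_mod_cast h1
    · have h2 : (m : ℝ) < n' := by exact_mod_cast hn1
      have h3 : (1 - δ) * t < n' := by linarith
      have h4 : ((1 - δ) * t) ^ 2 ≤ (n' : ℝ) ^ 2 := by
        apply pow_le_pow_left₀ _ h3.le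
        linarith
      refine lt_of_lt_of_le hq' ?_
      have h5 : (3 / 8 - 10 * δ) * t ^ 2 ≤ (3 / 8 - e / 2) * ((1 - δ) * t) ^ 2 := by
        rw [heδ, mul_pow, ← mul_assoc]
        apply mul_le_mul_of_nonneg_right _ ht2.le
        exact L5 δ hδ0 hδ1
      refine h5.trans ?_
      apply mul_le_mul_of_nonneg_left h4
      linarith
  · have h2 := prime_base P' hP' h1' h0'
    have h3 : m * (m - 1) ≤ 2 * q + 1 := by omega
    have h4 : ((m : ℝ) * (m - 1)) ≤ 2 * q + 1 := by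
      have : ((m * (m - 1) : ℕ) : ℝ) ≤ ((2 * q + 1 : ℕ) : ℝ) := by exact_mod_cast h3
      push_cast [Nat.cast_sub hm.one_lt.le] at this
      exact this
    have h6 : 0.99 * t ≤ m := by linarith
    have h7 : (0.99 * t) ^ 2 ≤ (m : ℝ) ^ 2 := by
      apply pow_le_pow_left₀ (by positivity) h6
    have h8 : (0.99 * t) ^ 2 = 0.9801 * t ^ 2 := by ring
    have h9 : (m : ℝ) * (m - 1) = (m : ℝ) ^ 2 - m := by ring
    have h10 : (3 / 8 - 10 * δ) * t ^ 2 = 3 / 8 * t ^ 2 - 10 * (δ * t ^ 2) := by ring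
    have h11 : 0 < δ * t ^ 2 := by positivity
    have h12 : 100 * t ≤ t ^ 2 := by
      rw [sq]
      exact mul_le_mul_of_nonneg_right ht100 (by linarith)
    linarith

end Pool.Agent.N593.Karp
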